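import Pool.Agent.THS.StmtsL

/-! THS, row TSC (telescope). -/

namespace Pool.Agent.THS.H75

open scoped BigOperators

theorem v_sum_le {K : Type} [Field K] (v : AbsoluteValue K ℝ) (hv : IsNonarchimedean v)
    (ε : ℝ) (hε : 0 ≤ ε) (f : ℕ → K) (hf : ∀ s, v (f s) ≤ ε) (n : ℕ) :
    v (∑ s ∈ Finset.range n, f s) ≤ ε := by
  induction n with
  | zero => simpa using hε
  | succ n ih =>
    rw [Finset.sum_range_succ]
    exact (hv _ _).trans (max_le ih (hf n))

theorem tele {K : Type} [Field K] (h : ℤ → K) (i : ℤ) (n : ℕ) :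
    ∑ s ∈ Finset.range n, (h (i + (-(n : ℤ) + 2 * (s : ℤ) + 1) + 1)
      - h (i + (-(n : ℤ) + 2 * (s : ℤ) + 1) - 1)) = h (i + n) - h (i - n) := by
  have h1 := Finset.sum_range_sub (fun s : ℕ => h (i - (n : ℤ) + 2 * (s : ℤ))) n
  have h2 : i - (n : ℤ) + 2 * (n : ℤ) = i + n := by ring
  have h3 : i - (n : ℤ) + 2 * ((0 : ℕ) : ℤ) = i - n := by simp
  rw [h2, h3] at h1
  rw [← h1]
  refine Finset.sum_congr rfl fun s _ => ?_
  have e1 : i + (-(n : ℤ) + 2 * (s : ℤ) + 1) + 1 = i - (n : ℤ) + 2 * ((s + 1 : ℕ) : ℤ) := by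
    push_cast
    ring
  have e2 : i + (-(n : ℤ) + 2 * (s : ℤ) + 1) - 1 = i - (n : ℤ) + 2 * (s : ℤ) := by ring
  rw [e1, e2]

theorem tsc (hshm : ShmStatement) : TscStatement := by
  intro K _ v c ε h hv h2 hε hD
  obtain ⟨s1, s2, s3, s4, s5⟩ := hshm K v hv
  have hneg : v (-1 : K) ≤ 1 := by simp
  have hE1 := s5 c ε _ (fun i => i + 1) (fun j => -j) hD
  have hE2 := s5 c ε _ (fun i => i) (fun j => -j + 1) hD
  have hE2' := s3 c ε (-1) _ hε hneg hE2
  have hG := s2 c c ε _ _ hE1 hE2'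
  obtain ⟨A, B, hA, hB, hAB⟩ := hG
  have hAB' : ∀ i j : ℤ, v ((h (i + j + 1) - h (i + j - 1)) - ∑ s, A s i * B s j) ≤ ε := by
    intro i j
    have h1 := hAB i j
    have e : (h (i + j + 1) - h (i + j - 1)) =
        (h (i + 1 + -j) + h (i + 1 - -j)) + (-1) * (h (i + (-j + 1)) + h (i - (-j + 1))) := by
      have a1 : i + 1 - -j = i + j + 1 := by ring
      have a2 : i - (-j + 1) = i + j - 1 := by ring
      have a3 : i + 1 + -j = i + (-j + 1) := by ring
      rw [a1, a2, a3]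
      ring
    rw [e]
    exact h1
  clear hAB
  -- the functions `C`
  let C0 : Fin (c + c) → ℕ → K := fun p n => ∑ s ∈ Finset.range n, B p (-(n : ℤ) + 2 * (s : ℤ) + 1)
  let C : Fin (c + c) → ℤ → K := fun p j => if 0 ≤ j then C0 p j.toNat else - C0 p (-j).toNat
  have hC0 : ∀ p n, v (C0 p n) ≤ 1 := fun p n =>
    v_sum_le v hv 1 zero_le_one (fun s => B p (-(n : ℤ) + 2 * (s : ℤ) + 1)) (fun s => hB p _) n
  have hC : ∀ p j, v (C p j) ≤ 1 := by
    intro p j
    by_cases hj : 0 ≤ j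
    · simp only [C, if_pos hj]
      exact hC0 p _
    · simp only [C, if_neg hj, AbsoluteValue.map_neg]
      exact hC0 p _
  have hnat : ∀ (i : ℤ) (n : ℕ), v ((h (i + n) - h (i - n)) - ∑ p, A p i * C0 p n) ≤ ε := by
    intro i n
    have e : (h (i + n) - h (i - n)) - ∑ p, A p i * C0 p n =
        ∑ s ∈ Finset.range n, ((h (i + (-(n : ℤ) + 2 * (s : ℤ) + 1) + 1)
          - h (i + (-(n : ℤ) + 2 * (s : ℤ) + 1) - 1))
          - ∑ p, A p i * B p (-(n : ℤ) + 2 * (s : ℤ) + 1)) := by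
      rw [Finset.sum_sub_distrib, tele]
      congr 1
      rw [Finset.sum_comm]
      refine Finset.sum_congr rfl fun p _ => ?_
      simp only [C0]
      rw [Finset.mul_sum]
    rw [e]
    exact v_sum_le v hv ε hε _ (fun s => hAB' i _) n
  have hF : Short v (c + c) ε (fun i j => h (i + j) - h (i - j)) := by
    refine ⟨A, C, hA, hC, ?_⟩
    intro i j
    by_cases hj : 0 ≤ j
    · have h1 := hnat i j.toNat
      have e : ((j.toNat : ℕ) : ℤ) = j := Int.toNat_of_nonneg hj
      rw [e] at h1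
      simp only [C, if_pos hj]
      exact h1
    · have h1 := hnat i (-j).toNat
      have e : (((-j).toNat : ℕ) : ℤ) = -j := Int.toNat_of_nonneg (by omega)
      rw [e] at h1
      simp only [C, if_neg hj]
      have e2 : (h (i + j) - h (i - j)) - ∑ p, A p i * -C0 p (-j).toNat =
          -((h (i + -j) - h (i - -j)) - ∑ p, A p i * C0 p (-j).toNat) := by
        have a1 : i + -j = i - j := by ring
        have a2 : i - -j = i + j := by ring
        rw [a1, a2]
        simp only [mul_neg, Finset.sum_neg_distrib]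
        ring
      rw [e2, AbsoluteValue.map_neg]
      exact h1
  have hS := s2 c (c + c) ε _ _ hD hF
  have hv2 : v ((2 : K)⁻¹) ≤ 1 := by
    rw [map_inv₀, h2]
    simp
  have hS2 := s3 (c + (c + c)) ε ((2 : K)⁻¹) _ hε hv2 hS
  have h2K : (2 : K) ≠ 0 := by
    intro h0
    rw [h0, map_zero] at h2
    exact zero_ne_one h2
  have e3 : 3 * c = c + (c + c) := by ring
  rw [e3]
  have e4 : (fun i j : ℤ => h (i + j)) =
      (fun i j : ℤ => (2 : K)⁻¹ * ((h (i + j) + h (i - j)) + (h (i + j) - h (i - j)))) := by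
    funext i j
    field_simp
    ring
  rw [e4]
  exact hS2

end Pool.Agent.THS.H75
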